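import Pool.Agent.Run7.h195.LB.SmInt
import Pool.Agent.N748.UG.Main
import Pool.Agent.Run7.h195.LB.SmT

/-!
# Close pairs of zeros inside a Bohr set, in every interval `[t, t + t ^ θ]` (under RH)

Assume the Riemann hypothesis. There is `θ < 1` such that for every `v > 0` there is `ε > 0` such that
for all rationally independent `α₁, …, α_k` and every open subset `U` of the torus of measure at
least `v`, for ALL large `t` the interval `[t, t + t ^ θ]` contains at least `ε t ^ θ log t` pairs of
consecutive ordinates with `α γ_n, α γ_{n+1} mod 1 ∈ U` and `γ_{n+1} - γ_n ≤ 0.505 · 2π / log t`.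

Proof: the quadratic form method with an almost periodic weight (`Pool.Agent.Run7.h195.LB.LOCALsm`)
works in every window of length `T ^ (1 - κ)`; the windows are put together in `SmInt`, and the
weight is put below the indicator function of the Bohr set.
-/

open Filter Topology Complex MeasureTheory

namespace Pool.Agent.Results.MP_ca0a54_nt.BohrSetsEveryInterval

/-- multiplicity of `s` as a zero of the Riemann zeta function (order of vanishing at `s`) -/
noncomputable def zmult (s : ℂ) : ℕ := analyticOrderNatAt riemannZeta s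

/-- the number of nontrivial zeros of `ζ` with ordinate in `(0, t]`, with multiplicity -/
noncomputable def NZ (t : ℝ) : ℕ :=
  ∑ᶠ s ∈ {s : ℂ | riemannZeta s = 0 ∧ 0 < s.re ∧ s.re < 1 ∧ 0 < s.im ∧ s.im ≤ t}, zmult s

/-- for `n ≥ 1`: the `n`-th positive ordinate `γ n` of a nontrivial zero of `ζ`, the ordinates being
listed in nondecreasing order and repeated according to multiplicity -/
noncomputable def γ (n : ℕ) : ℝ := sInf {t : ℝ | n ≤ NZ t}

/-- the point `α t mod 1` of the torus `(ℝ/ℤ)^k` -/
def pt {k : ℕ} (α : Fin k → ℝ) (t : ℝ) : UnitAddTorus (Fin k) :=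
  fun j => ((α j * t : ℝ) : UnitAddCircle)

/-- the normalised Haar measure of the torus -/
noncomputable def haar (k : ℕ) : Measure (UnitAddTorus (Fin k)) :=
  Measure.pi fun _ => AddCircle.haarAddCircle

/-- the (indices `n` of the) pairs of consecutive ordinates `t ≤ γ_n ≤ γ_{n+1} ≤ t + H`, both in the
Bohr set of `α` and `U`, at distance at most `2π a / log t` -/
def closePairs {k : ℕ} (α : Fin k → ℝ) (U : Set (UnitAddTorus (Fin k))) (a t H : ℝ) : Set ℕ :=
  {n : ℕ | 1 ≤ n ∧ t ≤ γ n ∧ γ (n + 1) ≤ t + H ∧ pt α (γ n) ∈ U ∧ pt α (γ (n + 1)) ∈ U ∧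
    γ (n + 1) - γ n ≤ 2 * Real.pi * a / Real.log t}

lemma ucont {k : ℕ} (α : Fin k → ℝ) (f : C(UnitAddTorus (Fin k), ℝ)) {e : ℝ} (he : 0 < e) :
    ∃ η : ℝ, 0 < η ∧ ∀ x y : ℝ, |x - y| < η → |f (pt α x) - f (pt α y)| < e := by
  have h1 : UniformContinuous f := CompactSpace.uniformContinuous_of_continuous f.continuous
  have h2 : UniformContinuous (pt α) := by
    let g : ℝ →+ UnitAddTorus (Fin k) :=
      { toFun := pt α
        map_zero' := by
          funext j
          simp [pt]
        map_add' := by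
          intro x y
          funext j
          simp [pt, mul_add] }
    have hg : Continuous g := by
      show Continuous (pt α)
      unfold pt
      refine continuous_pi fun j => ?_
      exact (AddCircle.continuous_mk' 1).comp (continuous_const.mul continuous_id)
    exact uniformContinuous_addMonoidHom_of_continuous hg
  have h3 := Metric.uniformContinuous_iff.1 (h1.comp h2) e he
  obtain ⟨η, hη, h⟩ := h3
  refine ⟨η, hη, fun x y hxy => ?_⟩
  have := h (a := x) (b := y) (by rw [Real.dist_eq]; exact hxy)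
  rwa [Real.dist_eq] at this

/-- On the Riemann hypothesis there is `θ < 1` such that: for every `v > 0` there is `ε > 0` such that
for all `k`, all rationally independent reals `α₁, …, α_k` and every open subset `U` of the torus
`(ℝ/ℤ)^k` with measure `|U| ≥ v`, for ALL large `t` at least `ε t ^ θ log t` pairs of consecutive
ordinates `t ≤ γ_n ≤ γ_{n+1} ≤ t + t ^ θ` satisfy `α γ_n mod 1 ∈ U`, `α γ_{n+1} mod 1 ∈ U` and
`γ_{n+1} - γ_n ≤ 0.505 · 2π / log t`. -/
theorem result (RH : RiemannHypothesis) : ∃ θ : ℝ, 0 < θ ∧ θ < 1 ∧ ∀ v : ℝ, 0 < v →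
    ∃ ε : ℝ, 0 < ε ∧ ∀ (k : ℕ) (α : Fin k → ℝ),
    (∀ n : Fin k → ℤ, ∑ j, (n j : ℝ) * α j = 0 → n = 0) →
    ∀ U : Set (UnitAddTorus (Fin k)), IsOpen U → v ≤ (haar k U).toReal →
      ∃ t₀ : ℝ, ∀ t : ℝ, t₀ ≤ t →
        ε * (t ^ θ * Real.log t) ≤ ((closePairs α U (505 / 1000) t (t ^ θ)).ncard : ℝ) := by
  classical
  have hpi := Real.pi_pos
  obtain ⟨θ, hθ0, hθ1, hmain⟩ := Run7.h195.LB.small_int RH
  refine ⟨θ, hθ0, hθ1, fun v hv => ?_⟩
  obtain ⟨ε, hε, h'⟩ := hmain (v / 4) (by positivity)
  refine ⟨ε, hε, fun k α hα U hU hUv => ?_⟩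
  have hpos : 0 < (haar k U).toReal := hv.trans_le hUv
  obtain ⟨f, hf0, hf1, hfU, hfM⟩ := R482.GB.open_inner hU hpos
  have hfM' : (haar k U).toReal / 2 ≤ ∫ x, f x ∂(TH803TW.haarT k) := hfM
  set g : C(UnitAddTorus (Fin k), ℝ) := ⟨fun x => max (f x - v / 4) 0, by fun_prop⟩ with hg
  have hga : ∀ x, g x = max (f x - v / 4) 0 := fun x => rfl
  have hg0 : ∀ x, 0 ≤ g x := fun x => by rw [hga]; exact le_max_right _ _
  have hg1 : ∀ x, g x ≤ 1 := fun x => by
    rw [hga]
    refine max_le ?_ zero_le_one
    have := hf1 x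
    linarith
  have hgM : v / 4 ≤ ∫ x, g x ∂(TH803TW.haarT k) := by
    have h1 : ∫ x, (f x - v / 4) ∂(TH803TW.haarT k) ≤ ∫ x, g x ∂(TH803TW.haarT k) := by
      refine integral_mono ?_ ?_ fun x => ?_
      · exact ((map_continuous f).integrable_of_hasCompactSupport
          (HasCompactSupport.of_compactSpace _)).sub (integrable_const _)
      · exact (map_continuous g).integrable_of_hasCompactSupport
          (HasCompactSupport.of_compactSpace _)
      · rw [hga]
        exact le_max_left _ _
    have h2 : ∫ x, (f x - v / 4) ∂(TH803TW.haarT k) = (∫ x, f x ∂(TH803TW.haarT k)) - v / 4 := by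
      rw [integral_sub ((map_continuous f).integrable_of_hasCompactSupport
        (HasCompactSupport.of_compactSpace _)) (integrable_const _), integral_const]
      simp
    rw [h2] at h1
    linarith
  obtain ⟨η, hη, huc⟩ := ucont α f (e := v / 4) (by positivity)
  obtain ⟨T1, hT1, h⟩ := h' (fun t => g (TH803TW.torusPt α t)) _ (TH803TW.APm_torus hα g)
    (fun t => hg0 _) (fun t => hg1 _) hgM
  obtain ⟨T2, hT2⟩ := (Real.tendsto_log_atTop.eventually_gt_atTop
    (2 * Real.pi / η)).exists_forall_of_atTop
  refine ⟨max T1 T2, fun t ht => ?_⟩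
  have g1 : T1 ≤ t := (le_max_left _ _).trans ht
  have g2 : T2 ≤ t := (le_max_right _ _).trans ht
  have hL0 : 0 < Real.log t := Real.log_pos (by linarith)
  have hL : 2 * Real.pi < η * Real.log t := by
    have := hT2 t g2
    rw [div_lt_iff₀ hη] at this
    linarith [mul_comm (Real.log t) η]
  refine (h t g1).trans ?_
  have hfin2 : (closePairs α U (505 / 1000) t (t ^ θ)).Finite := by
    refine (Set.finite_Icc 1 (SG.NZ (t + t ^ θ))).subset fun n hn => ⟨hn.1, ?_⟩
    have h1 : SG.ord (n + 1) ≤ t + t ^ θ := hn.2.2.1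
    have := (SG.ord_le_iff (by omega : 1 ≤ n + 1) _).mp h1
    omega
  calc ∑ n ∈ (Run7.h195.LB.IS_fin θ (505 / 1000) t).toFinset, g (TH803TW.torusPt α (SG.ord n)) ≤
      ∑ n ∈ (Run7.h195.LB.IS_fin θ (505 / 1000) t).toFinset,
        (if 0 < g (TH803TW.torusPt α (SG.ord n)) then (1 : ℝ) else 0) := by
        refine Finset.sum_le_sum fun n _ => ?_
        split_ifs with h1
        · exact hg1 _
        · exact not_lt.1 h1
    _ = ((((Run7.h195.LB.IS_fin θ (505 / 1000) t).toFinset).filter
        (fun n => 0 < g (TH803TW.torusPt α (SG.ord n)))).card : ℝ) := by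
        rw [Finset.sum_ite, Finset.sum_const_zero, add_zero, Finset.sum_const, nsmul_eq_mul,
          mul_one]
    _ ≤ (hfin2.toFinset.card : ℝ) := by
        refine Nat.cast_le.2 (Finset.card_le_card fun n hn => ?_)
        rw [Finset.mem_filter, Set.Finite.mem_toFinset] at hn
        rw [Set.Finite.mem_toFinset]
        obtain ⟨⟨a1, a2, a2', a3⟩, a4⟩ := hn
        have hm : SG.ord n ≤ SG.ord (n + 1) := SG.ord_mono a1 (by omega)
        have hgap : |SG.ord n - SG.ord (n + 1)| < η := by
          rw [abs_sub_comm, abs_of_nonneg (by linarith)]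
          refine a3.trans_lt ?_
          rw [div_lt_iff₀ hL0]
          nlinarith
        have h5 : v / 4 < f (pt α (SG.ord n)) := by
          have h6 : 0 < max (f (pt α (SG.ord n)) - v / 4) 0 := a4
          rcases lt_max_iff.1 h6 with h7 | h7
          · linarith
          · exact absurd h7 (lt_irrefl _)
        have h8 := (abs_lt.1 (huc _ _ hgap)).2
        refine ⟨a1, a2, a2', ?_, ?_, a3⟩
        · by_contra hcon
          have := hfU _ hcon
          have h9 : f (pt α (SG.ord n)) = 0 := this
          linarith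
        · by_contra hcon
          have := hfU _ hcon
          have h9 : f (pt α (SG.ord (n + 1))) = 0 := this
          linarith
    _ = _ := by rw [Set.ncard_eq_toFinset_card _ hfin2]

end Pool.Agent.Results.MP_ca0a54_nt.BohrSetsEveryInterval
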