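import Pool.Agent.Run7.h95.LF.RealLog
import Pool.Agent.Results.MP_ca0a54_nt.AdditiveValues

/-!
# Small gaps between zeta zeros around the values of generic linear forms

Let `v_i`, `i` in a countable set, be vectors in `ℝ^k` such that the sum of the `1 / (1 + log (1 + |v_i|)) ^ A` converges for
some `A`; for instance all `(b_1^(n_1), …, b_k^(n_k))` with `b_j > 1`, or all `(exp (n_1 ^ a), …, exp (n_k ^ a))`, `a > 0`. Let
`0 ≤ η < θ < 1` and `c > 2 / (3 + θ)`. For almost all `α` in `ℝ^k`, all `w` and all but finitely many `i`, EVERY interval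
`[t, t + t ^ θ]` with `t > 0` and `|t - (α_1 v_(i,1) + … + α_k v_(i,k))| ≤ w |v_i| ^ η` contains two consecutive ordinates of
zeros of `ζ` at distance less than `c` times the mean spacing `2π / log t`. (The starting files treat intervals at `f_n(α)`,
starshaped, with one parameter `α`, and around the values of additive functions.)

Proof. The starting theorem `AlmostAllIntervals` bounds the measure of the set of the exceptional `t`. For an exceptional `t`
all `s` in `[t, t + t ^ ρ]`, `ρ < θ`, are exceptional for a smaller `θ`; the `α` with exceptional `s` near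
`∑ α_l v_(i,l) + β |v_i| ^ η'` form slabs, whose measures have a finite sum (Borel-Cantelli, `Run7/h95/LF/RealLog`).
-/

set_option autoImplicit false

open Filter Topology MeasureTheory

namespace Pool.Agent.Results.MP_ca0a54_nt.GenericLinearForms

open Pool.Agent.N251.LF (Slow Fast slow_examples)
open Run7.h95.LF (real_log)
open AdditiveValues (SmallGap meas exists_theta)

/-- all points a little to the right of an exceptional point are exceptional for a smaller exponent -/
lemma spread {θ θ' ρ c : ℝ} (h1 : ρ < θ) (h2 : θ' < θ) (hθ' : 0 < θ') (hρ1 : ρ ≤ 1) (hc : 0 < c) :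
    ∃ t₀ : ℝ, ∀ t : ℝ, t₀ ≤ t → t ∈ {t : ℝ | ¬ SmallGap c t (t ^ θ)} → ∀ s : ℝ, t ≤ s → s ≤ t + t ^ ρ →
      s ∈ {s : ℝ | ¬ SmallGap c s (s ^ θ')} := by
  have e1 := (tendsto_rpow_atTop (show 0 < θ - ρ by linarith)).eventually (eventually_ge_atTop (2 : ℝ))
  have e2 := (tendsto_rpow_atTop (show 0 < θ - θ' by linarith)).eventually (eventually_ge_atTop (2 * (2 : ℝ) ^ θ'))
  obtain ⟨t₀, ht₀⟩ := eventually_atTop.1 ((e1.and e2).and (eventually_ge_atTop (2 : ℝ)))
  refine ⟨t₀, fun t ht hB s hts hst hs => hB ?_⟩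
  obtain ⟨⟨g1, g2⟩, g3⟩ := ht₀ t ht
  have ht0 : 0 < t := by linarith
  have k1 : t ^ ρ ≤ t := by
    calc t ^ ρ ≤ t ^ (1 : ℝ) := Real.rpow_le_rpow_of_exponent_le (by linarith) hρ1
      _ = t := Real.rpow_one t
  have k2 : 2 * t ^ ρ ≤ t ^ θ := by
    calc 2 * t ^ ρ ≤ t ^ (θ - ρ) * t ^ ρ := mul_le_mul_of_nonneg_right g1 (by positivity)
      _ = t ^ θ := by rw [← Real.rpow_add ht0, sub_add_cancel]
  have k3 : s ^ θ' ≤ (2 : ℝ) ^ θ' * t ^ θ' := by
    rw [← Real.mul_rpow (by norm_num) ht0.le]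
    exact Real.rpow_le_rpow (by linarith) (by linarith) hθ'.le
  have k4 : 2 * ((2 : ℝ) ^ θ' * t ^ θ') ≤ t ^ θ := by
    calc 2 * ((2 : ℝ) ^ θ' * t ^ θ') = 2 * (2 : ℝ) ^ θ' * t ^ θ' := by ring
      _ ≤ t ^ (θ - θ') * t ^ θ' := mul_le_mul_of_nonneg_right g2 (by positivity)
      _ = t ^ θ := by rw [← Real.rpow_add ht0, sub_add_cancel]
  obtain ⟨m, q1, q2, q3, q4, q5⟩ := hs
  have hl : 0 < Real.log t := Real.log_pos (by linarith)
  refine ⟨m, q1, hts.trans q2, q3, by linarith, lt_of_lt_of_le q5 ?_⟩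
  apply mul_le_mul_of_nonneg_left _ hc.le
  exact div_le_div_of_nonneg_left (by positivity) hl (Real.log_le_log ht0 hts)

/-- **Theorem.** Let `v_i` be vectors in `ℝ^k` such that the sum of the `1 / (1 + log (1 + ‖v_i‖)) ^ A` converges for some `A`
(`Slow v`), `0 ≤ η < θ < 1` and `c > 2 / (3 + θ)`. For almost all `α` in `ℝ^k`, all `w` and all but finitely many `i`, EVERY
interval `[t, t + t ^ θ]` with `t > 0` and `|t - ∑ α_l v_(i,l)| ≤ w ‖v_i‖ ^ η` contains two consecutive ordinates at distance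
less than `c` times the mean spacing `2π / log t`. Examples of families: the vectors `(u_1 (n_1), …, u_k (n_k))` with
`log |u_j n|` growing at least like a power of `n`, for instance `u_j n = b ^ n`, `b > 1`, or `exp (n ^ a)`, `a > 0`. -/
theorem result :
    (∀ (k : ℕ) (ι : Type) (v : ι → Fin k → ℝ), Slow v → ∀ η θ c : ℝ, 0 ≤ η → η < θ → θ < 1 → 2 / (3 + θ) < c →
      ∀ᵐ α : Fin k → ℝ, ∀ w : ℝ,
        {i | ¬ ∀ t : ℝ, 0 < t → |t - ∑ l, α l * v i l| ≤ w * ‖v i‖ ^ η → SmallGap c t (t ^ θ)}.Finite) ∧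
    (∀ (k : ℕ) (u : Fin k → ℕ → ℝ), (∀ j, Fast (u j)) → Slow (fun (n : Fin k → ℕ) (j : Fin k) => u j (n j))) ∧
    (∀ b : ℝ, 1 < b → Fast (fun n => b ^ n)) ∧
    ∀ a : ℝ, 0 < a → Fast (fun n => Real.exp ((n : ℝ) ^ a)) := by
  refine ⟨fun k ι v hv η θ c hη hηθ hθ1 hc => ?_, slow_examples⟩
  obtain ⟨θ', h1, h2, h3⟩ := exists_theta hη hηθ hc
  have hc0 : 0 < c := lt_trans (by have : 0 < 3 + θ := by linarith
                                   positivity) hc
  have h := real_log v hv {t : ℝ | ¬ SmallGap c t (t ^ θ)} {s : ℝ | ¬ SmallGap c s (s ^ θ')} hη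
    (show η < (η + θ) / 2 by linarith) (by linarith) (meas (by linarith) (by linarith) h3)
    (spread (by linarith) h2 (by linarith) (by linarith) hc0)
  filter_upwards [h] with α hα w
  refine (hα w).subset ?_
  intro i hi
  simp only [Set.mem_ofPred_eq] at hi ⊢
  push Not at hi
  exact hi

end Pool.Agent.Results.MP_ca0a54_nt.GenericLinearForms
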