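import Mathlib
import Pool.Agent.Run7.h609.DV.C
import Pool.Agent.Results.MP_ca0a54_nt.AdditiveValues

/-!
# Small gaps between zeta zeros around all large divisors of almost all integers, and around orders modulo primes

Let `G (v + 1) - G v ≥ a > 0` and `G v ≤ C v`, for example `G v = α v`, `0 ≤ η < θ < 1` and `c > 2 / (3 + θ)`. Say that `v` is
good if EVERY interval `[t, t + t ^ θ]` with `|t - G v| ≤ v ^ η` contains two consecutive ordinates of zeros of `ζ` at distance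
less than `c` times the mean spacing `2π / log t`.
* For every `δ` in `(0, 1]` and every `U`, for all `n ≤ N` but `O(N / (log N) ^ U)`, ALL divisors `m ≥ n ^ δ` of `n` are good.
* For every integer `a`, `|a| ≥ 2`, and every `U`, for all primes `p ≤ N` but `O(N / (log N) ^ U)`, the order of `a` modulo `p`
  is good.

The proof: the `v` which are not good are a set with a saving of every power of the logarithm, by the measure bound of the
starting theorem `AlmostAllIntervals` (as in `AdditiveValues`, helper897). The numbers with a divisor `m ≥ n ^ δ` in such a set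
are rare, by a dyadic decomposition; the order of `a` divides `p - 1`, and it is larger than `p ^ (1 / 4)` but for few
primes (`Run7/h609/DV`).
-/

set_option autoImplicit false

open Filter Topology MeasureTheory Finset

namespace Pool.Agent.Results.MP_ca0a54_nt.LargeDivisorsAndOrders

open Pool.Agent.Results.MP_ca0a54_nt.AlmostAllIntervals (ord)

/-- the steps of `G` are at least a positive constant, and `G` has at most linear growth -/
def LinearSteps (G : ℕ → ℝ) : Prop :=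
  (∃ a : ℝ, 0 < a ∧ ∀ v : ℕ, 1 ≤ v → a ≤ G (v + 1) - G v) ∧ ∃ C : ℝ, ∀ v : ℕ, 1 ≤ v → G v ≤ C * v

/-- `[t, t + H]` contains two consecutive ordinates of zeros (listed with multiplicity) at distance less than `c` times the
mean spacing `2π / log t` -/
def SmallGap (c t H : ℝ) : Prop :=
  ∃ m : ℕ, 1 ≤ m ∧ t ≤ ord m ∧ ord m ≤ ord (m + 1) ∧ ord (m + 1) ≤ t + H ∧
    ord (m + 1) - ord m < c * (2 * Real.pi / Real.log t)

/-- every interval `[t, t + t ^ θ]` with `|t - G v| ≤ v ^ η` has a small gap -/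
def Good (G : ℕ → ℝ) (η θ c : ℝ) (v : ℕ) : Prop :=
  ∀ t : ℝ, |t - G v| ≤ (v : ℝ) ^ η → SmallGap c t (t ^ θ)

open Pool.Agent.N733.TG (Expanding)
open Pool.Agent.N897.AVR (logThin_union logThin_lt logThin_heights expanding_add)
open Pool.Agent.Results.MP_ca0a54_nt.AdditiveValues (exists_theta spread meas)

/-- the `v` which are not good -/
lemma bad_thin {G : ℕ → ℝ} (hG : LinearSteps G) {η θ c : ℝ} (hη : 0 ≤ η) (hηθ : η < θ) (hθ1 : θ < 1)
    (hc : 2 / (3 + θ) < c) (U : ℕ) : ∃ K : ℝ, ∀ X : ℕ, 1 ≤ X →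
      (open Classical in (((Icc 1 X).filter (fun m => m ∈ {v : ℕ | ¬ Good G η θ c v})).card : ℝ)) ≤
        K * X / (1 + Real.log X) ^ U := by
  classical
  have hG' : Expanding G 1 := ⟨le_rfl, hG.1, by
    obtain ⟨C, hC⟩ := hG.2
    exact ⟨C, fun v hv => by rw [Real.rpow_one]; exact hC v hv⟩⟩
  obtain ⟨θ', h1, h2, h3⟩ := exists_theta hη hηθ hc
  have hc0 : 0 < c := lt_trans (by have : 0 < 3 + θ := by linarith
                                   positivity) hc
  obtain ⟨v₀, hv₀⟩ := spread hη h1 h2 hθ1 hc0 hG'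
  have hthin := logThin_union (logThin_lt v₀) (logThin_heights (meas (θ := θ') (c := c) (by linarith) (by linarith) h3)
    (expanding_add hG' hη (by linarith)))
  obtain ⟨K, hK⟩ := hthin U
  refine ⟨K, fun X hX => le_trans ?_ (hK X hX)⟩
  have hsub : (Icc 1 X).filter (fun m => m ∈ {v : ℕ | ¬ Good G η θ c v}) ⊆
      (range (X + 1)).filter (fun v => v ∈ ({v : ℕ | v < v₀} ∪
        {v : ℕ | Set.Ico (G v + (v : ℝ) ^ η) (G v + (v : ℝ) ^ η + 2) ⊆
          {s : ℝ | ¬ Pool.Agent.Results.MP_ca0a54_nt.AdditiveValues.SmallGap c s (s ^ θ')}})) := by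
    intro v hv
    rw [mem_filter, mem_Icc] at hv
    rw [mem_filter, mem_range]
    refine ⟨by omega, ?_⟩
    rcases lt_or_ge v v₀ with h | h
    · exact Or.inl h
    · right
      have h4 : ∃ t : ℝ, |t - G v| ≤ (v : ℝ) ^ η ∧ ¬ SmallGap c t (t ^ θ) := by
        have h5 := hv.2
        simp only [Set.mem_ofPred_eq, Good] at h5
        push Not at h5
        exact h5
      obtain ⟨t, ht1, ht2⟩ := h4
      exact hv₀ v h t ht1 ht2
  have h5 := card_le_card hsub
  refine le_trans (Nat.cast_le.2 h5) (le_of_eq ?_)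
  congr!

/-- **Small gaps around all large divisors of almost all integers, and around orders modulo primes.** -/
theorem result :
    (∀ G : ℕ → ℝ, LinearSteps G → ∀ η θ c : ℝ, 0 ≤ η → η < θ → θ < 1 → 2 / (3 + θ) < c →
      (∀ δ : ℝ, 0 < δ → δ ≤ 1 → ∀ U : ℕ, ∃ C : ℝ, 0 < C ∧ ∀ N : ℕ, 1 ≤ N →
        ({n : ℕ | 1 ≤ n ∧ n ≤ N ∧ ¬ ∀ m : ℕ, m ∣ n → (n : ℝ) ^ δ ≤ m → Good G η θ c m}.ncard : ℝ) ≤
          C * N / (1 + Real.log N) ^ U) ∧
      ∀ a : ℤ, 2 ≤ |a| → ∀ U : ℕ, ∃ C : ℝ, 0 < C ∧ ∀ N : ℕ, 1 ≤ N →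
        ({p : ℕ | p.Prime ∧ p ≤ N ∧ ¬ (p : ℤ) ∣ a ∧ ¬ Good G η θ c (orderOf (a : ZMod p))}.ncard : ℝ) ≤
          C * N / (1 + Real.log N) ^ U) ∧
    ∀ α : ℝ, 0 < α → LinearSteps fun v => α * v := by
  classical
  refine ⟨fun G hG η θ c hη hηθ hθ1 hc => ⟨fun δ hδ hδ1 U => ?_, fun a ha U => ?_⟩, fun α hα => ⟨⟨α, hα, fun v _ => ?_⟩, α, fun v _ => le_rfl⟩⟩
  · obtain ⟨C, hC, h⟩ := Run7.h609.DV.div_log {v : ℕ | ¬ Good G η θ c v} (fun U => by
      obtain ⟨K, hK⟩ := bad_thin hG hη hηθ hθ1 hc U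
      exact ⟨K, fun X hX => le_trans (le_of_eq (by congr!)) (hK X hX)⟩) hδ hδ1 U
    refine ⟨C, hC, fun N hN => le_trans ?_ (h N hN)⟩
    have hsub : {n : ℕ | 1 ≤ n ∧ n ≤ N ∧ ¬ ∀ m : ℕ, m ∣ n → (n : ℝ) ^ δ ≤ m → Good G η θ c m} ⊆
        (((Icc 1 N).filter (fun n => ∃ m ∈ {v : ℕ | ¬ Good G η θ c v}, m ∣ n ∧ (n : ℝ) ^ δ ≤ m) : Finset ℕ) : Set ℕ) := by
      rintro n ⟨h1, h2, h3⟩
      rw [mem_coe, mem_filter, mem_Icc]
      push Not at h3
      obtain ⟨m, g1, g2, g3⟩ := h3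
      exact ⟨⟨h1, h2⟩, m, g3, g1, g2⟩
    have h4 := Set.ncard_le_ncard hsub (finite_toSet _)
    rw [Set.ncard_coe_finset] at h4
    refine le_trans (Nat.cast_le.2 h4) (le_of_eq ?_)
    congr!
  · obtain ⟨C, hC, h⟩ := Run7.h609.DV.ord_log {v : ℕ | ¬ Good G η θ c v} (fun U => by
      obtain ⟨K, hK⟩ := bad_thin hG hη hηθ hθ1 hc U
      exact ⟨K, fun X hX => le_trans (le_of_eq (by congr!)) (hK X hX)⟩) ha U
    refine ⟨C, hC, fun N hN => le_trans ?_ (h N hN)⟩
    have hsub : {p : ℕ | p.Prime ∧ p ≤ N ∧ ¬ (p : ℤ) ∣ a ∧ ¬ Good G η θ c (orderOf (a : ZMod p))} ⊆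
        (((Icc 1 N).filter (fun p : ℕ => p.Prime ∧ ¬ (p : ℤ) ∣ a ∧
          orderOf (a : ZMod p) ∈ {v : ℕ | ¬ Good G η θ c v}) : Finset ℕ) : Set ℕ) := by
      rintro p ⟨h1, h2, h3, h4⟩
      rw [mem_coe, mem_filter, mem_Icc]
      exact ⟨⟨h1.one_lt.le, h2⟩, h1, h3, h4⟩
    have h4 := Set.ncard_le_ncard hsub (finite_toSet _)
    rw [Set.ncard_coe_finset] at h4
    refine le_trans (Nat.cast_le.2 h4) (le_of_eq ?_)
    congr!
  · push_cast
    linarith

end Pool.Agent.Results.MP_ca0a54_nt.LargeDivisorsAndOrders
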