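import Pool.Agent.Run7.h527.LP.C
import Pool.Agent.Results.MP_ca0a54_nt.AdditiveValues

/-!
# Small gaps between zeta zeros in ALL short intervals near aliquot sums, cototients and arithmetic derivatives

Let `g(m)` be the sum of the proper divisors of `m`, the cototient `m - φ(m)`, the arithmetic derivative `m'` (with `p' = 1`
for primes and Leibniz' rule), or any positive combination `α m + β f(m)` with `f = σ`, `φ` or the arithmetic derivative. Let
`G (v + 1) - G v ≥ a > 0` and `G v ≤ C v`, for example `G v = α v`, and let `0 ≤ η < θ < 1`, `c > 2 / (3 + θ)`.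

(1) For all `m ≤ N` which have a prime factor `p ≥ m^τ`, `τ > 1 - θ`, that does not divide `m / p ≥ 2`, and for which `g(m)` is
not smaller than `m^(1 - σ)`, but at most `N / (log N)^U` of them (for every `U`), EVERY interval `[t, t + t^θ]` with
`|t - G (g m)| ≤ g(m)^η` contains two consecutive ordinates of zeros of `ζ` at distance less than `c` times the mean spacing
`2π / log t`.

(2) For every `c > 1/2` and `ε > 0` there is `θ₀ < 1` such that for all `θ₀ < θ < 1` and `η < θ` the same is true for ALL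
`m ≤ N` but `ε N`.

Proof. Write `m = k p`. Then `g(m) = A p + B` with integers `A`, `B` which depend on `k` only. The starting theorem
`AlmostAllIntervals` bounds the measure of the set of the exceptional `t` by `T / (log T)^U` for every `U`. If some `t` near
`G (g m)` is exceptional for `θ`, then all `t` of an interval of length `g(m)^η'`, `η' > 1 - τ`, near `G (g m)` are exceptional
for a smaller `θ`. For given `k` the numbers `G (g (k p))` have distances at least `a A`, and `A` is less than `g(m)^η'`, so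
disjoint parts of the exceptional set of length `a A` belong to different `p` (the tool `Run7/h527/LP`). For small `τ` all but
`ε N` integers have a prime factor `p ≥ m^τ` of this kind, by the second moment of the number of the prime factors in
`(N^τ', N^(1 / 8))`. The starting file `AdditiveValues` treats functions dominated by the largest prime factor, such as the sum
of the prime factors; the functions here are not of this kind (`g(m)` is of size `m`).
-/

set_option autoImplicit false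

open Filter Topology MeasureTheory Finset

namespace Pool.Agent.Results.MP_ca0a54_nt.LargePrimeValues

open Pool.Agent.N733.TG (Expanding expanding_pow step_sum)
open Pool.Agent.Results.MP_ca0a54_nt.AdditiveValues (SmallGap meas exists_theta)
open Run7.h527.LP (Lin One Big lin_log of_logThin nearly_all lin_aliquot lin_cototient lin_deriv lin_sig lin_tot lin_der
  big_aliquot big_cototient big_deriv big_comb)
open Run7.h527.TP (aliquot cototient deriv sig comb density)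

/-- near an exceptional point all points of a long interval are exceptional for a smaller exponent (as in the starting file
`AdditiveValues`) -/
lemma spread {η η' θ θ' c : ℝ} (hη : 0 ≤ η) (h0 : η < η') (h1 : η' < θ') (h2 : θ' < θ) (hθ1 : θ < 1) (hc : 0 < c)
    {G : ℕ → ℝ} (hG : Expanding G 1) : ∃ v₀ : ℕ, ∀ v : ℕ, v₀ ≤ v → ∀ t : ℝ, |t - G v| ≤ (v : ℝ) ^ η →
      ¬ SmallGap c t (t ^ θ) →
      Set.Icc (G v + (v : ℝ) ^ η) (G v + (v : ℝ) ^ η') ⊆ {s : ℝ | ¬ SmallGap c s (s ^ θ')} := by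
  obtain ⟨a, ha, hstep⟩ := hG.step
  obtain ⟨C, hC⟩ := hG.growth
  obtain ⟨M, hM⟩ : ∃ M : ℝ, M = |C| + 3 := ⟨_, rfl⟩
  have hM0 : 0 < M := by rw [hM]; positivity
  have hη1 : η < 1 := by linarith
  have hθ0 : 0 < θ := by linarith
  have hθ'0 : 0 < θ' := by linarith
  have hpow : ∀ {x : ℝ}, 0 < x → Tendsto (fun v : ℕ => (v : ℝ) ^ x) atTop atTop := fun hx =>
    (tendsto_rpow_atTop hx).comp tendsto_natCast_atTop_atTop
  have e1 := (hpow (show 0 < 1 - η by linarith)).eventually (eventually_ge_atTop (4 / a))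
  have e2 := (hpow (show 0 < θ - θ' by linarith)).eventually (eventually_ge_atTop ((M ^ θ' + 4) / (a / 4) ^ θ))
  have e3 : ∀ᶠ v : ℕ in atTop, a - G 1 ≤ a / 2 * v :=
    (tendsto_natCast_atTop_atTop.const_mul_atTop (by positivity : 0 < a / 2)).eventually (eventually_ge_atTop _)
  have e4 : ∀ᶠ v : ℕ in atTop, 2 ≤ a / 4 * v :=
    (tendsto_natCast_atTop_atTop.const_mul_atTop (by positivity : 0 < a / 4)).eventually (eventually_ge_atTop _)
  obtain ⟨v₀, hv₀⟩ := eventually_atTop.1 ((e1.and e2).and ((e3.and e4).and (eventually_ge_atTop 1)))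
  refine ⟨v₀, fun v hv t ht1 ht2 s hs hs' => ?_⟩
  obtain ⟨⟨g1, g2⟩, ⟨g3, g4⟩, g5⟩ := hv₀ v hv
  have hv1 : (1 : ℝ) ≤ v := by exact_mod_cast g5
  have hv0 : (0 : ℝ) < v := by linarith
  obtain ⟨ht3, ht4⟩ := abs_le.1 ht1
  have k1 : (v : ℝ) ^ η ≤ a / 4 * v := by
    have : (v : ℝ) ^ η * (v : ℝ) ^ (1 - η) = v := by
      rw [← Real.rpow_add hv0, add_sub_cancel, Real.rpow_one]
    have h3 : (v : ℝ) ^ η * (4 / a) ≤ v := by
      calc (v : ℝ) ^ η * (4 / a) ≤ (v : ℝ) ^ η * (v : ℝ) ^ (1 - η) := mul_le_mul_of_nonneg_left g1 (by positivity)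
        _ = v := this
    rw [mul_div_assoc', div_le_iff₀ ha] at h3
    linarith
  have k2 : a / 2 * v ≤ G v := by
    have h3 := step_sum hstep (le_refl 1) g5
    have h4 : ((v - 1 : ℕ) : ℝ) = v - 1 := by
      rw [Nat.cast_sub g5, Nat.cast_one]
    rw [h4] at h3
    linarith
  have k3 : a / 4 * v ≤ t := by linarith
  have k4 : 2 ≤ t := by linarith
  have k5 : t ≤ s := by linarith [hs.1]
  have k6 : (v : ℝ) ^ η' ≤ v := by
    calc (v : ℝ) ^ η' ≤ (v : ℝ) ^ (1 : ℝ) := Real.rpow_le_rpow_of_exponent_le hv1 (by linarith)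
      _ = v := Real.rpow_one _
  have k7 : s ≤ M * v := by
    have h3 : G v ≤ |C| * v := by
      calc G v ≤ C * (v : ℝ) ^ (1 : ℝ) := hC v g5
        _ = C * v := by rw [Real.rpow_one]
        _ ≤ |C| * v := mul_le_mul_of_nonneg_right (le_abs_self _) hv0.le
    rw [hM]
    have := hs.2
    linarith
  have k8 : s ^ θ' ≤ M ^ θ' * (v : ℝ) ^ θ' := by
    rw [← Real.mul_rpow hM0.le hv0.le]
    exact Real.rpow_le_rpow (by linarith) k7 hθ'0.le
  have k9 : (v : ℝ) ^ η ≤ (v : ℝ) ^ θ' := Real.rpow_le_rpow_of_exponent_le hv1 (by linarith)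
  have k9' : (v : ℝ) ^ η' ≤ (v : ℝ) ^ θ' := Real.rpow_le_rpow_of_exponent_le hv1 h1.le
  have k10 : 1 ≤ (v : ℝ) ^ θ' := Real.one_le_rpow hv1 hθ'0.le
  have k11 : (M ^ θ' + 4) * (v : ℝ) ^ θ' ≤ t ^ θ := by
    have hb : 0 < (a / 4) ^ θ := by positivity
    rw [div_le_iff₀ hb] at g2
    calc (M ^ θ' + 4) * (v : ℝ) ^ θ' ≤ ((v : ℝ) ^ (θ - θ') * (a / 4) ^ θ) * (v : ℝ) ^ θ' :=
          mul_le_mul_of_nonneg_right g2 (by positivity)
      _ = (a / 4) ^ θ * ((v : ℝ) ^ (θ - θ') * (v : ℝ) ^ θ') := by ring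
      _ = (a / 4) ^ θ * (v : ℝ) ^ θ := by rw [← Real.rpow_add hv0, sub_add_cancel]
      _ = (a / 4 * v) ^ θ := by rw [Real.mul_rpow (by positivity) hv0.le]
      _ ≤ t ^ θ := Real.rpow_le_rpow (by positivity) k3 hθ0.le
  have k12 : s + s ^ θ' ≤ t + t ^ θ := by
    have h3 : s ≤ t + (v : ℝ) ^ η + (v : ℝ) ^ η' := by linarith [hs.2]
    have h4 : (M ^ θ' + 4) * (v : ℝ) ^ θ' = M ^ θ' * (v : ℝ) ^ θ' + 4 * (v : ℝ) ^ θ' := by ring
    linarith
  obtain ⟨m, q1, q2, q3, q4, q5⟩ := hs'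
  apply ht2
  have hl : 0 < Real.log t := Real.log_pos (by linarith)
  refine ⟨m, q1, k5.trans q2, q3, q4.trans k12, lt_of_lt_of_le q5 ?_⟩
  apply mul_le_mul_of_nonneg_left _ hc.le
  exact div_le_div_of_nonneg_left (by positivity) hl (Real.log_le_log (by linarith) k5)

/-- the values `v` with an exceptional `t` near `G v` -/
def Bad (G : ℕ → ℝ) (η θ c : ℝ) : Set ℕ := {v : ℕ | ¬ ∀ t : ℝ, |t - G v| ≤ (v : ℝ) ^ η → SmallGap c t (t ^ θ)}

/-- all integers with a large prime factor and a big value -/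
theorem main {g : ℕ → ℕ} (hg : Lin g) {G : ℕ → ℝ} (hG : Expanding G 1) {η θ c τ : ℝ} (hη : 0 ≤ η) (hηθ : η < θ)
    (hθ1 : θ < 1) (hc : 2 / (3 + θ) < c) (hθτ : 1 - θ < τ) (hτ : τ ≤ 1) :
    ∃ σ : ℝ, 0 < σ ∧
      Pool.Agent.N375.AV.LogThin {m : ℕ | One τ m ∧ (m : ℝ) ^ (1 - σ) ≤ g m ∧ g m ∈ Bad G η θ c} := by
  obtain ⟨θ', h1, h2, h3⟩ := exists_theta (hη.trans (le_max_left η (1 - τ))) (max_lt hηθ (by linarith)) hc
  have hc0 : 0 < c := lt_trans (by have : 0 < 3 + θ := by linarith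
                                   positivity) hc
  obtain ⟨η', h4, h5⟩ := exists_between h1
  have h6 := (le_max_left η (1 - τ)).trans_lt h4
  have h7 := (le_max_right η (1 - τ)).trans_lt h4
  obtain ⟨v₀, hv₀⟩ := spread hη h6 h5 h2 hθ1 hc0 hG
  obtain ⟨σ, hσ, h⟩ := lin_log (B := {s : ℝ | ¬ SmallGap c s (s ^ θ')})
    (meas (by linarith) (by linarith) h3) hG hg hη h6 h7 hτ (by linarith)
  refine ⟨σ, hσ, h (Bad G η θ c) v₀ fun v hv hb => ?_⟩
  unfold Bad at hb
  rw [Set.mem_ofPred_eq] at hb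
  push Not at hb
  obtain ⟨t, ht1, ht2⟩ := hb
  exact hv₀ v hv t ht1 ht2

/-- **Small gaps between zeta zeros near the values of functions which are linear in a large prime factor.** (1) Let `g` be of
the class `Lin`, let `G` have steps `≥ a > 0` and growth at most `v`, let `0 ≤ η < θ < 1`, `c > 2 / (3 + θ)` and
`1 - θ < τ ≤ 1`. There is `σ > 0` such that for all `U` and all large `N`, for all `m ≤ N` with `One τ m` and
`g m ≥ m ^ (1 - σ)` but at most `N / (log N)^U` of them, EVERY interval `[t, t + t ^ θ]` with `|t - G (g m)| ≤ (g m) ^ η`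
contains two consecutive ordinates at distance less than `c` times the mean spacing `2π / log t`. (2) For all `c > 1/2` and
`ε > 0` there is `θ₀ < 1` such that for all `θ₀ < θ < 1`, `0 ≤ η < θ`, all `g` of the classes `Lin` and `Big` and all such `G`
this is true for ALL `m ≤ N` but `ε N`. (3) The sum of the proper divisors, the cototient, the arithmetic derivative are
examples of `g` in (1) and (2), so are their combinations `α m + β f(m)` with `α ≥ 1`, `β ≥ 0`, and all positive combinations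
are examples in (1). -/
theorem result :
    (∀ g : ℕ → ℕ, Lin g → ∀ G : ℕ → ℝ, Expanding G 1 → ∀ η θ c τ : ℝ, 0 ≤ η → η < θ → θ < 1 → 2 / (3 + θ) < c →
      1 - θ < τ → τ ≤ 1 → ∃ σ : ℝ, 0 < σ ∧ ∀ U : ℕ, ∃ N₀ : ℕ, ∀ N : ℕ, N₀ ≤ N →
      ({m : ℕ | 1 ≤ m ∧ m ≤ N ∧ One τ m ∧ (m : ℝ) ^ (1 - σ) ≤ g m ∧
        ¬ ∀ t : ℝ, |t - G (g m)| ≤ (g m : ℝ) ^ η → SmallGap c t (t ^ θ)}.ncard : ℝ) ≤ N / Real.log N ^ U) ∧
    (∀ c ε : ℝ, 1 / 2 < c → 0 < ε → ∃ θ₀ : ℝ, θ₀ < 1 ∧ ∀ θ η : ℝ, θ₀ < θ → θ < 1 → 0 ≤ η → η < θ →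
      ∀ g : ℕ → ℕ, Lin g → Big g → ∀ G : ℕ → ℝ, Expanding G 1 → ∃ N₀ : ℕ, ∀ N : ℕ, N₀ ≤ N →
      ({m : ℕ | 1 ≤ m ∧ m ≤ N ∧
        ¬ ∀ t : ℝ, |t - G (g m)| ≤ (g m : ℝ) ^ η → SmallGap c t (t ^ θ)}.ncard : ℝ) ≤ ε * N) ∧
    ((Lin aliquot ∧ Big aliquot) ∧ (Lin cototient ∧ Big cototient) ∧ (Lin deriv ∧ Big deriv) ∧
      (∀ α β : ℤ, (∀ m : ℕ, 2 ≤ m → 0 < α * m + β * sig m) → Lin (comb α β sig)) ∧
      (∀ α β : ℤ, (∀ m : ℕ, 2 ≤ m → 0 < α * m + β * Nat.totient m) → Lin (comb α β Nat.totient)) ∧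
      (∀ α β : ℤ, (∀ m : ℕ, 2 ≤ m → 0 < α * m + β * deriv m) → Lin (comb α β deriv)) ∧
      ∀ α β : ℤ, 1 ≤ α → 0 ≤ β → ∀ f : ℕ → ℕ, Big (comb α β f)) ∧
    ∀ α : ℝ, 0 < α → Expanding (fun v => α * (v : ℝ) ^ (1 : ℝ)) 1 := by
  refine ⟨fun g hg G hG η θ c τ hη hηθ hθ1 hc hθτ hτ => ?_, fun c ε hc hε => ?_,
    ⟨⟨lin_aliquot, big_aliquot⟩, ⟨lin_cototient, big_cototient⟩, ⟨lin_deriv, big_deriv⟩, fun α β h => lin_sig h,
      fun α β h => lin_tot h, fun α β h => lin_der h, fun α β hα hβ f => big_comb α β hα hβ f⟩,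
    fun α hα => expanding_pow hα le_rfl⟩
  · obtain ⟨σ, hσ, h⟩ := main hg hG hη hηθ hθ1 hc hθτ hτ
    refine ⟨σ, hσ, fun U => ?_⟩
    exact of_logThin h U
  · obtain ⟨τ, hτ0, hτ1, hden⟩ := density (ε / 3) (by positivity)
    have hc2 : 2 / c < 4 := by
      rw [div_lt_iff₀ (by linarith)]
      linarith
    refine ⟨max (1 - τ / 2) (2 / c - 3), max_lt (by linarith) (by linarith), fun θ η hθ hθ1 hη hηθ g hg hbig G hG => ?_⟩
    have h1 := (le_max_left _ _).trans_lt hθ
    have h2 := (le_max_right _ _).trans_lt hθ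
    have h3 : 2 / (3 + θ) < c := by
      rw [div_lt_iff₀ (by linarith)]
      have h4 : 2 / c < 3 + θ := by linarith
      rw [div_lt_iff₀ (by linarith)] at h4
      linarith
    obtain ⟨σ, hσ, h⟩ := main hg hG hη hηθ hθ1 h3 (τ := τ / 2) (by linarith) (by linarith)
    exact nearly_all hτ0 hε hσ hden hbig (fun m => g m ∈ Bad G η θ c) h

end Pool.Agent.Results.MP_ca0a54_nt.LargePrimeValues
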